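import Pool.Agent.H914R2.Graded
import Pool.Agent.H621.AF.Eig

/-!
# Eigenvectors in a tensor product of algebras
-/

set_option autoImplicit false

open Finset Module
open scoped TensorProduct

set_option linter.unusedSectionVars false

namespace Pool.Agent.H621.OV

open Pool.Agent.H621.AF Pool.Agent.H914

section defs

variable {K A B C : Type} [Field K] [Ring A] [Algebra K A] [Ring B] [Algebra K B] [Ring C]
  [Algebra K C]

/-- The linear map `A ⊗ B → C`, `a ⊗ b ↦ p(a) q(b)` is bijective. -/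
def IsKunnethPair (p : A →ₐ[K] C) (q : B →ₐ[K] C) : Prop :=
  Function.Bijective (TensorProduct.lift ((LinearMap.mul K C).compl₁₂ p.toLinearMap q.toLinearMap))

end defs

section

variable {K A B C : Type} [Field K] [Ring A] [Algebra K A] [Ring B] [Algebra K B] [Ring C]
  [Algebra K C] {p : A →ₐ[K] C} {q : B →ₐ[K] C} (hk : IsKunnethPair p q)

/-- The isomorphism. -/
noncomputable def eqv : A ⊗[K] B ≃ₗ[K] C := LinearEquiv.ofBijective _ hk

theorem eqv_tmul (a : A) (b : B) : eqv hk (a ⊗ₜ b) = p a * q b := rfl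

theorem eqv_symm (a : A) (b : B) : (eqv hk).symm (p a * q b) = a ⊗ₜ b := by
  rw [← eqv_tmul hk, LinearEquiv.symm_apply_apply]

include hk in
theorem ten_ext {M : Type*} [AddCommGroup M] {L L' : C → M}
    (hL : ∀ a b, L (a + b) = L a + L b) (hL' : ∀ a b, L' (a + b) = L' a + L' b)
    (h : ∀ a b, L (p a * q b) = L' (p a * q b)) (c : C) : L c = L' c := by
  obtain ⟨t, rfl⟩ := (eqv hk).surjective c
  induction t using TensorProduct.induction_on with
  | zero =>
    rw [map_zero]
    have h0 : ∀ {f : C → M}, (∀ a b, f (a + b) = f a + f b) → f 0 = 0 := fun {f} hf => by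
      have := hf 0 0
      rwa [add_zero, left_eq_add] at this
    rw [h0 hL, h0 hL']
  | tmul a b => exact h a b
  | add x y hx hy => rw [map_add, hL, hL', hx, hy]

include hk in
theorem lin_ext {M : Type*} [AddCommGroup M] [Module K M] {L L' : C →ₗ[K] M}
    (h : ∀ a b, L (p a * q b) = L' (p a * q b)) : L = L' :=
  LinearMap.ext (ten_ext hk (fun a b => map_add _ _ _) (fun a b => map_add _ _ _) h)

/-- Contraction with a linear form on the first factor. -/
noncomputable def ctrA (φ : A →ₗ[K] K) : C →ₗ[K] B :=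
  (TensorProduct.lid K B).toLinearMap ∘ₗ (φ.rTensor B) ∘ₗ (eqv hk).symm.toLinearMap

theorem ctrA_apply (φ : A →ₗ[K] K) (a : A) (b : B) : ctrA hk φ (p a * q b) = φ a • b := by
  change TensorProduct.lid K B (φ.rTensor B ((eqv hk).symm _)) = _
  rw [eqv_symm, LinearMap.rTensor_tmul, TensorProduct.lid_tmul]

/-- Contraction with a linear form on the second factor. -/
noncomputable def ctrB (ψ : B →ₗ[K] K) : C →ₗ[K] A :=
  (TensorProduct.rid K A).toLinearMap ∘ₗ (ψ.lTensor A) ∘ₗ (eqv hk).symm.toLinearMap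

theorem ctrB_apply (ψ : B →ₗ[K] K) (a : A) (b : B) : ctrB hk ψ (p a * q b) = ψ b • a := by
  change TensorProduct.rid K A (ψ.lTensor A ((eqv hk).symm _)) = _
  rw [eqv_symm, LinearMap.lTensor_tmul, TensorProduct.rid_tmul]

theorem ctrB_add (ψ ψ' : B →ₗ[K] K) (c : C) : ctrB hk (ψ + ψ') c = ctrB hk ψ c + ctrB hk ψ' c := by
  refine ten_ext hk (L := ctrB hk (ψ + ψ')) (L' := fun c => ctrB hk ψ c + ctrB hk ψ' c)
    (fun a b => map_add _ _ _) ?_ ?_ c
  · intro a b
    rw [map_add, map_add]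
    abel
  · intro a z
    rw [ctrB_apply, ctrB_apply, ctrB_apply, LinearMap.add_apply, add_smul]

theorem ctrB_smul (x : K) (ψ : B →ₗ[K] K) (c : C) : ctrB hk (x • ψ) c = x • ctrB hk ψ c := by
  refine ten_ext hk (L := ctrB hk (x • ψ)) (L' := fun c => x • ctrB hk ψ c)
    (fun a b => map_add _ _ _) ?_ ?_ c
  · intro a b
    rw [map_add, smul_add]
  · intro a z
    rw [ctrB_apply, ctrB_apply, LinearMap.smul_apply, smul_eq_mul, mul_smul]

/-- Expansion in a basis of the first factor. -/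
theorem expandA {R : Type*} [Fintype R] (b : Module.Basis R K A) (c : C) :
    c = ∑ r, p (b r) * q (ctrA hk (b.coord r) c) := by
  refine ten_ext hk (L := fun c => c) (L' := fun c => ∑ r, p (b r) *
    q (ctrA hk (b.coord r) c)) (fun _ _ => rfl) ?_ ?_ c
  · intro a c
    rw [← Finset.sum_add_distrib]
    refine Finset.sum_congr rfl fun r _ => ?_
    rw [map_add, map_add, mul_add]
  · intro a z
    simp only [ctrA_apply, map_smul]
    have h1 : ∀ r, p (b r) * b.coord r a • q z = p (b.repr a r • b r) * q z := by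
      intro r
      rw [map_smul, smul_mul_assoc, mul_smul_comm]
      rfl
    rw [Finset.sum_congr rfl fun r _ => h1 r, ← Finset.sum_mul, ← map_sum, b.sum_repr]

/-- Expansion in a basis of the second factor. -/
theorem expandB {R : Type*} [Fintype R] (b : Module.Basis R K B) (c : C) :
    c = ∑ r, p (ctrB hk (b.coord r) c) * q (b r) := by
  refine ten_ext hk (L := fun c => c) (L' := fun c => ∑ r, p (ctrB hk (b.coord r) c) *
    q (b r)) (fun _ _ => rfl) ?_ ?_ c
  · intro a c
    rw [← Finset.sum_add_distrib]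
    refine Finset.sum_congr rfl fun r _ => ?_
    rw [map_add, map_add, add_mul]
  · intro a z
    simp only [ctrB_apply, map_smul]
    have h1 : ∀ r, (b.coord r z • p a) * q (b r) = p a * q (b.repr z r • b r) := by
      intro r
      rw [map_smul, smul_mul_assoc, mul_smul_comm]
      rfl
    rw [Finset.sum_congr rfl fun r _ => h1 r, ← Finset.mul_sum, ← map_sum, b.sum_repr]

/-- The map `f ⊗ g`. -/
noncomputable def tmap (f : End K A) (g : End K B) : End K C :=
  (eqv hk).toLinearMap ∘ₗ (TensorProduct.map f g) ∘ₗ (eqv hk).symm.toLinearMap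

theorem tmap_apply (f : End K A) (g : End K B) (a : A) (b : B) :
    tmap hk f g (p a * q b) = p (f a) * q (g b) := by
  change eqv hk (TensorProduct.map f g ((eqv hk).symm _)) = _
  rw [eqv_symm, TensorProduct.map_tmul, eqv_tmul]

variable {grA : ℕ → Submodule K A} {grB : ℕ → Submodule K B} {grC : ℕ → Submodule K C}

/-- Homogeneous components. -/
theorem proj_ext (hB : DirectSum.IsInternal grB) (hC : DirectSum.IsInternal grC)
    (hmul : ∀ i j, ∀ a ∈ grC i, ∀ b ∈ grC j, a * b ∈ grC (i + j))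
    (hp : ∀ i, ∀ a ∈ grA i, p a ∈ grC i) (hq : ∀ i, ∀ b ∈ grB i, q b ∈ grC i)
    {i l : ℕ} {a : A} (ha : a ∈ grA i) (w : B) :
    proj hC l (p a * q w) = if i ≤ l then p a * q (proj hB (l - i) w) else 0 := by
  refine gr_induction hB (p := fun w => proj hC l (p a * q w) =
    if i ≤ l then p a * q (proj hB (l - i) w) else 0) ?_ ?_ w
  · intro j w hw
    have h1 : p a * q w ∈ grC (i + j) := hmul _ _ _ (hp _ _ ha) _ (hq _ _ hw)
    by_cases hil : i ≤ l
    · rw [if_pos hil]
      by_cases hj : j = l - i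
      · subst hj
        rw [proj_same _ hw]
        have h2 : i + (l - i) = l := by omega
        rw [h2] at h1
        rw [proj_same _ h1]
      · rw [proj_ne _ hw hj, map_zero, mul_zero, proj_ne _ h1 (by omega)]
    · rw [if_neg hil, proj_ne _ h1 (by omega)]
  · intro w w' hw hw'
    rw [map_add, mul_add, map_add, hw, hw']
    by_cases hil : i ≤ l
    · rw [if_pos hil, if_pos hil, if_pos hil, map_add, map_add, mul_add]
    · rw [if_neg hil, if_neg hil, if_neg hil, add_zero]

variable {Γ : Type} [Group Γ] {χ : Γ →* Kˣ} {ρ : Γ →* (A ≃ₐ[K] A)} {τ : Γ →* (B ≃ₐ[K] B)}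
  {υ : Γ →* (C ≃ₐ[K] C)} (h1 : ∀ g a, υ g (p a) = p (ρ g a)) (h2 : ∀ g b, υ g (q b) = q (τ g b))

theorem inv_act (τ : Γ →* (B ≃ₐ[K] B)) (g : Γ) (z : B) : τ g⁻¹ (τ g z) = z := by
  have h := congrArg (fun f : B ≃ₐ[K] B => f z) (map_mul τ g⁻¹ g)
  simp only [inv_mul_cancel, map_one] at h
  exact h.symm

include h1 h2

theorem act_ext (g : Γ) (a : A) (b : B) : υ g (p a * q b) = p (ρ g a) * q (τ g b) := by
  rw [map_mul, h1, h2]

theorem ctrB_act (g : Γ) (ψ : B →ₗ[K] K) (c : C) :
    ρ g (ctrB hk ψ c) = ctrB hk (ψ ∘ₗ (τ g⁻¹).toLinearMap) (υ g c) := by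
  refine ten_ext hk (L := fun c => ρ g (ctrB hk ψ c))
    (L' := fun c => ctrB hk (ψ ∘ₗ (τ g⁻¹).toLinearMap) (υ g c)) ?_ ?_ ?_ c
  · intro a b
    rw [map_add, map_add]
  · intro a b
    rw [map_add, map_add]
  · intro a z
    rw [act_ext h1 h2, ctrB_apply, ctrB_apply, map_smul, LinearMap.comp_apply]
    congr 2
    exact (inv_act τ g z).symm

include hk in
/-- The eigenvalues on the product are products of eigenvalues. -/
theorem eig_prod [IsAlgClosed K] [FiniteDimensional K A] [FiniteDimensional K B]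
    [FiniteDimensional K C] {g : Γ} {w : Kˣ} (hw : IsEigenvalueOn υ g ⊤ w) :
    ∃ x y : Kˣ, w = x * y ∧ IsEigenvalueOn ρ g ⊤ x ∧ IsEigenvalueOn τ g ⊤ y := by
  obtain ⟨c, -, hc, hcw⟩ := hw
  let R : End K A := (ρ g).toLinearMap
  let S : End K B := (τ g).toLinearMap
  have e1 : tmap hk R (1 : End K B) * tmap hk (1 : End K A) S = (υ g).toLinearMap := by
    refine lin_ext hk fun a z => ?_
    rw [End.mul_apply, tmap_apply, tmap_apply]
    exact (act_ext h1 h2 g a z).symm
  have e2 : tmap hk (1 : End K A) S * tmap hk R (1 : End K B) = (υ g).toLinearMap := by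
    refine lin_ext hk fun a z => ?_
    rw [End.mul_apply, tmap_apply, tmap_apply]
    exact (act_ext h1 h2 g a z).symm
  obtain ⟨x, y, hxy, ⟨c1, hc1, hx⟩, ⟨c2, hc2, hy⟩⟩ := eig_mul (e1.trans e2.symm) (w := (w : K))
    hc (by rw [e1]; exact hcw)
  have hx0 : x ≠ 0 := fun h => w.ne_zero (by rw [hxy, h, zero_mul])
  have hy0 : y ≠ 0 := fun h => w.ne_zero (by rw [hxy, h, mul_zero])
  refine ⟨Units.mk0 x hx0, Units.mk0 y hy0, Units.ext hxy, ?_, ?_⟩
  · let b := Module.finBasis K B
    obtain ⟨r, hr⟩ : ∃ r, ctrB hk (b.coord r) c1 ≠ 0 := by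
      by_contra hcon
      push Not at hcon
      apply hc1
      rw [expandB hk b c1]
      exact Finset.sum_eq_zero fun r _ => by rw [hcon r, map_zero, zero_mul]
    have h3 : ctrB hk (b.coord r) ∘ₗ tmap hk R (1 : End K B) = R ∘ₗ ctrB hk (b.coord r) := by
      refine lin_ext hk fun a z => ?_
      rw [LinearMap.comp_apply, LinearMap.comp_apply, tmap_apply, ctrB_apply, ctrB_apply, map_smul]
      rfl
    refine ⟨_, trivial, hr, ?_⟩
    have h4 := congrArg (fun f => f c1) h3
    simp only [LinearMap.comp_apply] at h4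
    rw [hx, map_smul] at h4
    exact h4.symm
  · let b := Module.finBasis K A
    obtain ⟨r, hr⟩ : ∃ r, ctrA hk (b.coord r) c2 ≠ 0 := by
      by_contra hcon
      push Not at hcon
      apply hc2
      rw [expandA hk b c2]
      exact Finset.sum_eq_zero fun r _ => by rw [hcon r, map_zero, mul_zero]
    have h3 : ctrA hk (b.coord r) ∘ₗ tmap hk (1 : End K A) S = S ∘ₗ ctrA hk (b.coord r) := by
      refine lin_ext hk fun a z => ?_
      rw [LinearMap.comp_apply, LinearMap.comp_apply, tmap_apply, ctrA_apply, ctrA_apply, map_smul]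
      rfl
    refine ⟨_, trivial, hr, ?_⟩
    have h4 := congrArg (fun f => f c2) h3
    simp only [LinearMap.comp_apply] at h4
    rw [hy, map_smul] at h4
    exact h4.symm

omit h1 h2 in
/-- The span of the Tate classes. -/
def tspan (χ : Γ →* Kˣ) (gr : ℕ → Submodule K A) (ρ : Γ →* (A ≃ₐ[K] A)) : Submodule K A :=
  Submodule.span K {c | ∃ j, IsTateClass χ gr ρ j c}

omit h1 h2 in
/-- There is no nontrivial common constituent. -/
def Unlinked (χ : Γ →* Kˣ) (gr : ℕ → Submodule K A) (ρ : Γ →* (A ≃ₐ[K] A))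
    (τ : Γ →* (B ≃ₐ[K] B)) : Prop :=
  ∀ (Δ : Subgroup Γ) (P : Submodule K A), Δ.FiniteIndex → (∀ h ∈ Δ, ∀ a ∈ P, ρ h a ∈ P) →
    (∀ g ∈ Δ, ∀ x, IsEigenvalueOn ρ g P x → ∃ y, IsEigenvalueOn τ g ⊤ y ∧
      ∃ e : ℕ, x * y = χ g ^ e) → P ≤ tspan χ gr ρ

/-- The contractions of a Tate class are in the span of the Tate classes. -/
theorem ctrB_mem [FiniteDimensional K A] [FiniteDimensional K B] (hU : Unlinked χ grA ρ τ)
    {j : ℕ} {t : C} {Δ : Subgroup Γ} (hΔ : Δ.FiniteIndex)
    (ht : ∀ g ∈ Δ, υ g t = (χ g : K) ^ j • t) (ψ : B →ₗ[K] K) :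
    ctrB hk ψ t ∈ tspan χ grA ρ := by
  let L : (B →ₗ[K] K) →ₗ[K] A :=
    { toFun := fun ψ => ctrB hk ψ t
      map_add' := fun ψ ψ' => ctrB_add hk ψ ψ' t
      map_smul' := fun x ψ => ctrB_smul hk x ψ t }
  have h3 : ∀ g ∈ Δ, ∀ ψ, ρ g (L ψ) = L ((χ g : K) ^ j • (ψ ∘ₗ (τ g⁻¹).toLinearMap)) := by
    intro g hg ψ
    change ρ g (ctrB hk ψ t) = ctrB hk _ t
    rw [ctrB_act hk h1 h2, ht g hg, map_smul, ctrB_smul]
  have h4 := hU Δ (LinearMap.range L) hΔ ?_ ?_
  · exact h4 ⟨ψ, rfl⟩
  · rintro h hh _ ⟨ψ, rfl⟩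
    rw [h3 h hh]
    exact ⟨_, rfl⟩
  · intro g hg x ⟨v, hv, hv0, hvx⟩
    let S : End K (B →ₗ[K] K) :=
      { toFun := fun ψ => (χ g : K) ^ j • (ψ ∘ₗ (τ g⁻¹).toLinearMap)
        map_add' := fun ψ ψ' => by rw [LinearMap.add_comp, smul_add]
        map_smul' := fun x ψ => by rw [LinearMap.smul_comp, smul_comm]; rfl }
    obtain ⟨φ, hφ0, hφ⟩ := eig_of_quotient (L := L) (R := (ρ g).toLinearMap) (S := S)
      (fun ψ => h3 g hg ψ) hv hv0 (x := (x : K)) hvx
    have h5 : ∀ z, φ ((τ g).toLinearMap z) = ((χ g ^ j * x⁻¹ : Kˣ) : K) * φ z := by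
      intro z
      have h6 := congrArg (fun f : B →ₗ[K] K => f (τ g z)) hφ
      have h7 : (χ g : K) ^ j * φ z = (x : K) * φ (τ g z) := by
        have h8 : φ ((τ g⁻¹) (τ g z)) = φ z := by rw [inv_act]
        rw [← h8]
        exact h6
      change φ (τ g z) = _
      rw [Units.val_mul, Units.val_pow_eq_pow_val, mul_right_comm, h7, mul_assoc, mul_comm,
        mul_assoc, Units.inv_mul, mul_one]
    obtain ⟨z, hz0, hz⟩ := eig_of_dual hφ0 h5
    exact ⟨χ g ^ j * x⁻¹, ⟨z, trivial, hz0, hz⟩, j, by rw [mul_comm, inv_mul_cancel_right]⟩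

include hk in
/-- The Tate classes on the product are combinations of products of Tate classes. -/
theorem tate_span [FiniteDimensional K A] [FiniteDimensional K B]
    (hA : DirectSum.IsInternal grA) (hB : DirectSum.IsInternal grB)
    (hC : DirectSum.IsInternal grC)
    (hmul : ∀ i j, ∀ a ∈ grC i, ∀ b ∈ grC j, a * b ∈ grC (i + j))
    (hp : ∀ i, ∀ a ∈ grA i, p a ∈ grC i) (hq : ∀ i, ∀ b ∈ grB i, q b ∈ grC i)
    (hU : Unlinked χ grA ρ τ) (hτ : ∀ g i, ∀ a ∈ grB i, τ g a ∈ grB i)
    {j : ℕ} {t : C} (htj : t ∈ grC (2 * j)) {Δ : Subgroup Γ}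
    (hΔ : Δ.FiniteIndex) (ht : ∀ g ∈ Δ, υ g t = (χ g : K) ^ j • t) :
    t ∈ Submodule.span K {c | ∃ i i' x y, i + i' = j ∧ IsTateClass χ grA ρ i x ∧
      IsTateClass χ grB τ i' y ∧ c = p x * q y} := by
  classical
  have hmem := ctrB_mem hk h1 h2 hU hΔ ht
  obtain ⟨B', hBs, hBspan, hBli'⟩ := exists_linearIndependent K
    {c | ∃ j, IsTateClass χ grA ρ j c}
  have hBli : LinearIndepOn K id B' := hBli'
  let b := Basis.extend hBli
  have hbB : B' ⊆ hBli.extend (Set.subset_univ B') := hBli.subset_extend _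
  have : Finite (hBli.extend (Set.subset_univ B')) := Module.Finite.finite_basis b
  have := Fintype.ofFinite (hBli.extend (Set.subset_univ B'))
  have : Finite B' := Finite.Set.subset _ hbB
  have := Fintype.ofFinite B'
  have hb : ∀ r : hBli.extend (Set.subset_univ B'), b r = (r : A) :=
    fun r => Basis.extend_apply_self hBli r
  choose i hi using fun r : B' => hBs r.2
  choose Δr hΔr hact using fun r : B' => (hi r).2
  set s : hBli.extend (Set.subset_univ B') → B := fun r => ctrA hk (b.coord r) t with hs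
  have hexp : t = ∑ r, p (b r) * q (s r) := expandA hk b t
  have hq0 : ∀ r : hBli.extend (Set.subset_univ B'), (r : A) ∉ B' → s r = 0 := by
    intro r hr
    let b' := Module.finBasis K B
    rw [hs]
    change ctrA hk (b.coord r) t = 0
    rw [expandB hk b' t, map_sum]
    refine Finset.sum_eq_zero fun l _ => ?_
    rw [ctrA_apply]
    have h3 : b.coord r (ctrB hk (b'.coord l) t) = 0 := by
      have h4 := hmem (b'.coord l)
      rw [tspan, ← hBspan] at h4
      have h5 : Submodule.span K B' ≤ LinearMap.ker (b.coord r) := by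
        rw [Submodule.span_le]
        intro x hx
        have h6 : x = b ⟨x, hbB hx⟩ := (hb ⟨x, hbB hx⟩).symm
        rw [SetLike.mem_coe, LinearMap.mem_ker, h6, Basis.coord_apply, Basis.repr_self,
          Finsupp.single_eq_of_ne]
        intro h7
        exact hr (h7 ▸ hx)
      exact h5 h4
    rw [h3, zero_smul]
  let Δ' : Subgroup Γ := Δ ⊓ ⨅ r, Δr r
  have hΔ' : Δ'.FiniteIndex := by
    have := hΔ
    have : (⨅ r, Δr r).FiniteIndex := Subgroup.finiteIndex_iInf hΔr
    infer_instance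
  have hinv : ∀ g ∈ Δ', ∀ (r : hBli.extend (Set.subset_univ B')) (hr : (r : A) ∈ B'),
      (χ g : K) ^ i ⟨r, hr⟩ • τ g (s r) = (χ g : K) ^ j • s r := by
    intro g hg r hr
    have h3 : υ g t = ∑ r', p (b r') *
        q (if h : (r' : A) ∈ B' then (χ g : K) ^ i ⟨r', h⟩ • τ g (s r') else 0) := by
      conv_lhs => rw [hexp]
      rw [map_sum]
      refine Finset.sum_congr rfl fun r' _ => ?_
      rw [act_ext h1 h2]
      by_cases h : (r' : A) ∈ B'
      · rw [dif_pos h]
        have h4 := hact ⟨r', h⟩ g ((Subgroup.mem_iInf.1 hg.2) _)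
        rw [hb r']
        rw [show ρ g (r' : A) = (χ g : K) ^ i ⟨r', h⟩ • (r' : A) from h4, map_smul,
          map_smul, smul_mul_assoc, mul_smul_comm]
      · rw [dif_neg h, hq0 r' h, map_zero, map_zero, mul_zero, mul_zero]
    have h5 : ∀ s : hBli.extend (Set.subset_univ B') → B,
        ctrA hk (b.coord r) (∑ r', p (b r') * q (s r')) = s r := by
      intro s
      rw [map_sum, Finset.sum_eq_single r]
      · rw [ctrA_apply, Basis.coord_apply, Basis.repr_self, Finsupp.single_eq_same, one_smul]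
      · intro r' _ hr'
        rw [ctrA_apply, Basis.coord_apply, Basis.repr_self,
          Finsupp.single_eq_of_ne (Ne.symm hr'), zero_smul]
      · intro h
        exact absurd (Finset.mem_univ _) h
    have h6 := h5 fun r' => if h : (r' : A) ∈ B' then
      (χ g : K) ^ i ⟨r', h⟩ • τ g (s r') else 0
    rw [← h3, ht g hg.1, map_smul, dif_pos hr] at h6
    exact h6.symm
  have hproj : t = ∑ r, proj hC (2 * j) (p (b r) * q (s r)) := by
    rw [← map_sum, ← hexp, proj_same _ htj]
  rw [hproj]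
  refine Submodule.sum_mem _ fun r _ => ?_
  by_cases hr : (r : A) ∈ B'
  · have hgr : b r ∈ grA (2 * i ⟨r, hr⟩) := by
      rw [hb r]
      exact (hi ⟨r, hr⟩).1
    rw [proj_ext hB hC hmul hp hq hgr]
    by_cases hij : 2 * i ⟨r, hr⟩ ≤ 2 * j
    · rw [if_pos hij]
      have e1 : 2 * j - 2 * i ⟨r, hr⟩ = 2 * (j - i ⟨r, hr⟩) := by omega
      rw [e1]
      refine Submodule.subset_span ⟨i ⟨r, hr⟩, j - i ⟨r, hr⟩, b r, _, by omega, ?_, ?_, rfl⟩
      · refine ⟨hgr, Δr ⟨r, hr⟩, hΔr _, fun g hg => ?_⟩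
        rw [hb r]
        exact hact ⟨r, hr⟩ g hg
      · refine ⟨proj_mem _ _ _, Δ', hΔ', fun g hg => ?_⟩
        have h4 := hinv g hg r hr
        have h5 : (χ g : K) ^ j = (χ g : K) ^ i ⟨r, hr⟩ *
            (χ g : K) ^ (j - i ⟨r, hr⟩) := by
          rw [← pow_add]
          congr 1
          omega
        rw [h5, mul_smul] at h4
        have h6 := smul_right_injective _ (pow_ne_zero _ (Units.ne_zero (χ g))) h4
        have h7 : ∀ z, τ g (proj hB (2 * (j - i ⟨r, hr⟩)) z) =
            proj hB (2 * (j - i ⟨r, hr⟩)) (τ g z) := by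
          intro z
          refine gr_induction hB (p := fun z => τ g (proj hB (2 * (j - i ⟨r, hr⟩)) z) =
            proj hB (2 * (j - i ⟨r, hr⟩)) (τ g z)) ?_ ?_ z
          · intro l a ha
            by_cases hl : l = 2 * (j - i ⟨r, hr⟩)
            · subst hl
              rw [proj_same _ ha, proj_same _ (hτ g _ a ha)]
            · rw [proj_ne _ ha hl, proj_ne _ (hτ g _ a ha) hl, map_zero]
          · intro a a' ha ha'
            rw [map_add, map_add, map_add, map_add, ha, ha']
        rw [h7, h6, map_smul]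
    · rw [if_neg hij]
      exact Submodule.zero_mem _
  · rw [hq0 r hr, map_zero, mul_zero, map_zero]
    exact Submodule.zero_mem _

include hk in
/-- The product action respects the degrees. -/
theorem graded_prod (hA : DirectSum.IsInternal grA) (hB : DirectSum.IsInternal grB)
    (hC : DirectSum.IsInternal grC)
    (hmul : ∀ i j, ∀ a ∈ grC i, ∀ b ∈ grC j, a * b ∈ grC (i + j))
    (hp : ∀ i, ∀ a ∈ grA i, p a ∈ grC i) (hq : ∀ i, ∀ b ∈ grB i, q b ∈ grC i)
    (hρ : ∀ g i, ∀ a ∈ grA i, ρ g a ∈ grA i) (hτ : ∀ g i, ∀ a ∈ grB i, τ g a ∈ grB i) :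
    ∀ g i, ∀ a ∈ grC i, υ g a ∈ grC i := by
  intro g i c hc
  have h3 : ∀ c, υ g (proj hC i c) = proj hC i (υ g c) := by
    refine ten_ext hk (L := fun c => υ g (proj hC i c)) (L' := fun c => proj hC i (υ g c))
      (fun a b => by rw [map_add, map_add]) (fun a b => by rw [map_add, map_add]) ?_
    intro a b
    refine gr_induction hA (p := fun a => υ g (proj hC i (p a * q b)) =
      proj hC i (υ g (p a * q b))) ?_ ?_ a
    · intro l a ha
      refine gr_induction hB (p := fun b => υ g (proj hC i (p a * q b)) =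
        proj hC i (υ g (p a * q b))) ?_ ?_ b
      · intro m z hz
        rw [act_ext h1 h2, proj_ext hB hC hmul hp hq ha, proj_ext hB hC hmul hp hq (hρ g l a ha)]
        by_cases h : l ≤ i
        · rw [if_pos h, if_pos h, act_ext h1 h2]
          congr 2
          by_cases h' : m = i - l
          · subst h'
            rw [proj_same _ hz, proj_same _ (hτ g _ z hz)]
          · rw [proj_ne _ hz h', proj_ne _ (hτ g _ z hz) h', map_zero]
        · rw [if_neg h, if_neg h, map_zero]
      · intro b b' hb hb'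
        rw [map_add, mul_add, map_add, map_add, map_add, map_add, hb, hb']
    · intro a a' ha ha'
      rw [map_add, add_mul, map_add, map_add, map_add, map_add, ha, ha']
  have h4 := h3 c
  rw [proj_same _ hc] at h4
  rw [h4]
  exact proj_mem _ _ _

end

end Pool.Agent.H621.OV
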