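import Pool.Agent.H621.OV.Var
import Pool.Agent.H621.OV.Alg

/-!
# Cohomology of smooth varieties, independent families and products: definitions
-/

open CategoryTheory AlgebraicGeometry

universe u

namespace Pool.Agent.H621.OV

open Pool.Agent.H621.AF SVar

section alg

variable {K A B : Type} [Field K] [Ring A] [Algebra K A] [Ring B] [Algebra K B]

/-- A finite-dimensional graded algebra which is generated by `1` in degree `0`. -/
structure IsCohAlgebra (gr : ℕ → Submodule K A) : Prop where
  finite : Module.Finite K A
  isInternal : DirectSum.IsInternal gr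
  one_mem : 1 ∈ gr 0
  gr_zero : gr 0 = Submodule.span K {1}
  mul_mem : ∀ i j, ∀ a ∈ gr i, ∀ b ∈ gr j, a * b ∈ gr (i + j)

/-- The homomorphism preserves the degrees. -/
def PreservesDegrees (grA : ℕ → Submodule K A) (grB : ℕ → Submodule K B) (f : A →ₐ[K] B) : Prop :=
  ∀ i, ∀ a ∈ grA i, f a ∈ grB i

/-- The element `f a * g b`. -/
def mulPull {A' B' : Type} [Ring A'] [Algebra K A'] [Ring B'] [Algebra K B'] (f : A' →ₐ[K] A)
    (g : B' →ₐ[K] A) (a : A') (b : B') : A := f a * g b

/-- The elements of `C j` are in `gr (2 * j)`. -/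
def InEvenDegree (gr : ℕ → Submodule K A) (C : ℕ → Set A) : Prop := ∀ j, ∀ c ∈ C j, c ∈ gr (2 * j)

/-- The homomorphism maps `CA j` to `CB j`. -/
def MapsClasses (CA : ℕ → Set A) (CB : ℕ → Set B) (f : A →ₐ[K] B) : Prop :=
  ∀ j, ∀ c ∈ CA j, f c ∈ CB j

/-- The product of an element of `C i` and an element of `C j` is in `C (i + j)`. -/
def IsMultiplicative (C : ℕ → Set A) : Prop := ∀ i j, ∀ a ∈ C i, ∀ b ∈ C j, a * b ∈ C (i + j)

/-- For `j ≤ n` all Tate classes of codimension `j` are linear combinations of elements of `C j`. -/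
def TateElt {Γ : Type} [Group Γ] (χ : Γ →* Kˣ) (gr : ℕ → Submodule K A) (C : ℕ → Set A)
    (ρ : Γ →* (A ≃ₐ[K] A)) (n : ℕ) : Prop :=
  ∀ j ≤ n, ∀ c, IsTateClass χ gr ρ j c → c ∈ Submodule.span K (C j)

end alg

/-- The data of a cohomology theory for the smooth varieties over `k`: algebras `H(X)` over a field
`K` with subspaces `H^i(X)`, pull-backs, and classes of algebraic cycles. -/
structure SmData (k : Type u) [Field k] where
  /-- the coefficient field -/
  K : Type
  [field : Field K]
  /-- the cohomology algebra -/
  H : SVar k → Type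
  [ring : ∀ X, Ring (H X)]
  [algebra : ∀ X, Algebra K (H X)]
  /-- the grading: `gr X i` is `H^i(X)` -/
  gr : ∀ X, ℕ → Submodule K (H X)
  /-- pull-back in cohomology -/
  map : ∀ {X Y : SVar k}, (X ⟶ Y) → (H Y →ₐ[K] H X)
  /-- the cycle class map -/
  cl : ∀ X : SVar k, X.Cycles →+ H X

attribute [instance] SmData.field SmData.ring SmData.algebra

/-- Pull-back is a functor to graded algebras. -/
structure IsFunctorial {k : Type u} [Field k] (C : SmData k) : Prop where
  map_id : ∀ (X : SVar k), C.map (𝟙 X) = AlgHom.id C.K (C.H X)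
  map_comp : ∀ {X Y Z : SVar k} (f : X ⟶ Y) (g : Y ⟶ Z), C.map (f ≫ g) = (C.map f).comp (C.map g)
  map_mem : ∀ {X Y : SVar k} (f : X ⟶ Y), PreservesDegrees (C.gr Y) (C.gr X) (C.map f)

/-- The classes of the algebraic cycles of codimension `j`. -/
def algClasses {k : Type u} [Field k] (C : SmData k) (X : SVar k) (j : ℕ) : Set (C.H X) :=
  {c | ∃ z, X.IsCyc j z ∧ c = C.cl X z}

/-- The classes of cycles of codimension `j` are in `H^(2j)`, and they are compatible with pull-backs
and products. -/
structure HasCycleClasses {k : Type u} [Field k] (C : SmData k) : Prop where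
  cl_mem : ∀ X : SVar k, InEvenDegree (C.gr X) (algClasses C X)
  cl_pull : ∀ (X Y : SVar k) (f : X ⟶ Y), MapsClasses (algClasses C Y) (algClasses C X) (C.map f)
  cl_mul : ∀ X : SVar k, IsMultiplicative (algClasses C X)

/-- A cohomology theory for the smooth varieties over the algebraically closed field `k`: a
contravariant functor to finite-dimensional graded algebras over a field `K`, with the Künneth
formula and classes of algebraic cycles which are compatible with pull-backs and products. (There is
a morphism, for example a constant one, from every variety to every other one.) -/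
structure SmCohomology (k : Type u) [Field k] extends SmData k where
  isAlg : ∀ X, IsCohAlgebra (gr X)
  isFunctorial : IsFunctorial toSmData
  kunneth : ∀ X Y : SVar k, IsKunnethPair (toSmData.map (fst X Y)) (toSmData.map (snd X Y))
  nonempty_hom : ∀ X Y : SVar k, Nonempty (X ⟶ Y)
  hasCycleClasses : HasCycleClasses toSmData

variable {k : Type u} [Field k]

/-- A smooth variety with an action of the group `Γ` on its cohomology algebra. -/
structure OVar (C : SmCohomology k) (Γ : Type) [Group Γ] where
  /-- the variety -/
  X : SVar k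
  /-- the action -/
  act : Γ →* (C.H X ≃ₐ[C.K] C.H X)

variable {C : SmCohomology k} {Γ : Type} [Group Γ]

/-- The group acts through automorphisms of the graded algebra. -/
def RespectsDegrees (X : OVar C Γ) : Prop := IsGradedAct (C.gr X.X) X.act

/-- The Tate conjecture for `X` in codimension `≤ n`: for `j ≤ n` all Tate classes of codimension `j`
(elements of `H^(2j)(X)` which are multiplied by `χ g ^ j` by all `g` in a subgroup of finite index)
are linear combinations of classes of algebraic cycles of codimension `j`. -/
def TateUpTo (χ : Γ →* C.Kˣ) (n : ℕ) (X : OVar C Γ) : Prop :=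
  TateElt χ (C.gr X.X) (algClasses C.toSmData X.X) X.act n

/-- The eigenvalues of `g` on the cohomology of the varieties in `F`. -/
def eigenvalues (F : Set (OVar C Γ)) (g : Γ) : Set C.Kˣ :=
  {x | ∃ X ∈ F, IsEigenvalue X.act g x}

/-- The element `g` is generic for all varieties in `F`. -/
def GenericFor (χ : Γ →* C.Kˣ) (F : Set (OVar C Γ)) (g : Γ) : Prop :=
  ∀ X ∈ F, IsGeneric χ (C.gr X.X) X.act g

/-- An independent family of sets `F i` of varieties: for every finite part of the family there is an
element `g` of the group which is generic for the varieties and whose eigenvalues for different `i` are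
independent. -/
structure IndependentFamily (χ : Γ →* C.Kˣ) {J : Type} (F : J → Set (OVar C Γ)) : Prop where
  degrees : ∀ i, ∀ X ∈ F i, RespectsDegrees X
  generic : ∀ A : Finset J, ∃ g, (∀ i ∈ A, GenericFor χ (F i) g) ∧
    IndependentModulo (χ g) (fun i => eigenvalues (F i) g) A

/-- For all elements `g` of the group the eigenvalues of `g` on the cohomology of `U` are in the group
generated by `χ g`, by the eigenvalues of `g` on the representation `P` and by the eigenvalues of `g` on
the cohomology of the varieties in `F i`, `i ∈ S`. -/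
def EigenvaluesFrom (χ : Γ →* C.Kˣ) (P : FinRep C.K Γ) {J : Type} (F : J → Set (OVar C Γ))
    (S : Set J) (U : OVar C Γ) : Prop :=
  ∀ g x, IsEigenvalue U.act g x →
    IsGenerated (χ g) (P.eigenvalues g) (fun i => eigenvalues (F i) g) S x

/-- The homomorphism `f` is equivariant. -/
def Intertwines {K A B : Type} [Field K] [Ring A] [Algebra K A] [Ring B] [Algebra K B]
    (f : A →ₐ[K] B) (ρ : Γ →* (A ≃ₐ[K] A)) (υ : Γ →* (B ≃ₐ[K] B)) : Prop :=
  ∀ g a, υ g (f a) = f (ρ g a)

/-- `Y` is the product of `X` and `U`, with an action which is compatible with the projections. -/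
def IsProduct (X U Y : OVar C Γ) : Prop :=
  ∃ h : Y.X = X.X.prod U.X, Intertwines (C.map (eqToHom h ≫ fst X.X U.X)) X.act Y.act ∧
    Intertwines (C.map (eqToHom h ≫ snd X.X U.X)) U.act Y.act

/-- `Y = X_1 × (X_2 × ( ⋯ × U))`, where the list is `[(i_1, X_1), (i_2, X_2), …]`, the indices `i_r`
are pairwise different, and `X_r` is a member of the set `F i_r`. -/
inductive IsTower {J : Type} (F : J → Set (OVar C Γ)) (U : OVar C Γ) :
    List (J × OVar C Γ) → OVar C Γ → Prop
  | base : IsTower F U [] U
  | step {l Y Y'} (i : J) (X : OVar C Γ) : IsTower F U l Y → (∀ p ∈ l, p.1 ≠ i) → X ∈ F i →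
      IsProduct X Y Y' → IsTower F U ((i, X) :: l) Y'

/-- The product of the pull-backs of the classes `a` and `c` on `Y' = X × Y`. -/
noncomputable def cross {X Y Y' : SVar k} (h : Y' = X.prod Y) (a : C.H X) (c : C.H Y) : C.H Y' :=
  mulPull (C.map (eqToHom h ≫ fst X Y)) (C.map (eqToHom h ≫ snd X Y)) a c

/-- The class `c` on `Y = X_1 × (X_2 × ( ⋯ × U))` is a product of Tate classes on the factors, with sum
`j` of the codimensions. -/
inductive IsTateProduct (χ : Γ →* C.Kˣ) {J : Type} (U : OVar C Γ) :
    List (J × OVar C Γ) → (Y : OVar C Γ) → ℕ → C.H Y.X → Prop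
  | base (j : ℕ) (c : C.H U.X) : IsTateClass χ (C.gr U.X) U.act j c → IsTateProduct χ U [] U j c
  | step {l Y Y' j c} (i : J) (X : OVar C Γ) (m : ℕ) (a : C.H X.X) (h : Y'.X = X.X.prod Y.X) :
      IsTateProduct χ U l Y j c → IsTateClass χ (C.gr X.X) X.act m a →
      IsTateProduct χ U ((i, X) :: l) Y' (m + j) (cross h a c)

/-- All Tate classes of codimension `j` on `Y` are linear combinations of products of Tate classes on
the factors, with sum `j` of the codimensions. -/
def TateClassesSplit (χ : Γ →* C.Kˣ) {J : Type} (U : OVar C Γ) (l : List (J × OVar C Γ))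
    (Y : OVar C Γ) : Prop :=
  ∀ j c, IsTateClass χ (C.gr Y.X) Y.act j c →
    c ∈ Submodule.span C.K {c | IsTateProduct χ U l Y j c}

end Pool.Agent.H621.OV
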