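import Pool.Agent.H621.OV.Chain

/-!
# The Tate conjecture for the products of smooth varieties
-/

open CategoryTheory AlgebraicGeometry Finset Module

set_option linter.unusedSectionVars false

universe u

namespace Pool.Agent.H621.OV

open SVar
open Pool.Agent.H621.AF (Near IndependentModulo FinRep FinRep.eigenvalues IsEigenvalueOn
  IsEigenvalue IsGeneric IsTateClass)

variable {k : Type u} [Field k] {C : SmCohomology k} {Γ : Type} [Group Γ] {χ : Γ →* C.Kˣ}
  {P : FinRep C.K Γ} {J : Type} {F : J → Set (OVar C Γ)}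

theorem EigenvaluesFrom.mono {S S' : Set J} (h : S ⊆ S') {Z : OVar C Γ}
    (hZ : EigenvaluesFrom χ P F S Z) : EigenvaluesFrom χ P F S' Z := by
  intro g x hx
  refine Subgroup.closure_mono ?_ (hZ g x hx)
  exact Set.union_subset_union_right _ (Set.biUnion_subset_biUnion_left h)

section geo

variable {X Y : SVar k}

theorem map_comp_apply {X Y Z : SVar k} (f : X ⟶ Y) (g : Y ⟶ Z) (a : C.H Z) :
    C.map (f ≫ g) a = C.map f (C.map g a) := by
  rw [C.isFunctorial.map_comp]
  rfl

theorem map_id_apply (a : C.H X) : C.map (𝟙 X) a = a := by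
  rw [C.isFunctorial.map_id]
  rfl

theorem span_map {f : X ⟶ Y} {j : ℕ} {c : C.H Y} (hc : c ∈ Submodule.span C.K (algClasses C.toSmData Y j)) :
    C.map f c ∈ Submodule.span C.K (algClasses C.toSmData X j) := by
  induction hc using Submodule.span_induction with
  | mem c hc =>
    exact Submodule.subset_span (C.hasCycleClasses.cl_pull X Y f j c hc)
  | zero => rw [map_zero]; exact Submodule.zero_mem _
  | add x y _ _ hx hy => rw [map_add]; exact Submodule.add_mem _ hx hy
  | smul c x _ hx => rw [map_smul]; exact Submodule.smul_mem _ _ hx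

theorem span_mul {i j : ℕ} {a b : C.H X} (ha : a ∈ Submodule.span C.K (algClasses C.toSmData X i))
    (hb : b ∈ Submodule.span C.K (algClasses C.toSmData X j)) :
    a * b ∈ Submodule.span C.K (algClasses C.toSmData X (i + j)) := by
  induction ha using Submodule.span_induction with
  | mem a ha =>
    induction hb using Submodule.span_induction with
    | mem b hb =>
      exact Submodule.subset_span (C.hasCycleClasses.cl_mul X i j a ha b hb)
    | zero => rw [mul_zero]; exact Submodule.zero_mem _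
    | add x y _ _ hx hy => rw [mul_add]; exact Submodule.add_mem _ hx hy
    | smul c x _ hx => rw [mul_smul_comm]; exact Submodule.smul_mem _ _ hx
  | zero => rw [zero_mul]; exact Submodule.zero_mem _
  | add x y _ _ hx hy => rw [add_mul]; exact Submodule.add_mem _ hx hy
  | smul c x _ hx => rw [smul_mul_assoc]; exact Submodule.smul_mem _ _ hx

variable {ρ : Γ →* (C.H X ≃ₐ[C.K] C.H X)} {τ : Γ →* (C.H Y ≃ₐ[C.K] C.H Y)}
  {υ : Γ →* (C.H (X.prod Y) ≃ₐ[C.K] C.H (X.prod Y))}
  (h1 : ∀ g a, υ g (C.map (fst X Y) a) = C.map (fst X Y) (ρ g a))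
  (h2 : ∀ g z, υ g (C.map (snd X Y) z) = C.map (snd X Y) (τ g z))

include h1 in
theorem tate_fst {n : ℕ} (h : TateElt χ (C.gr (X.prod Y)) (algClasses C.toSmData (X.prod Y)) υ n) :
    TateElt χ (C.gr X) (algClasses C.toSmData X) ρ n := by
  intro j hj c ⟨hc, Δ, hΔ, hΔc⟩
  obtain ⟨f⟩ := C.nonempty_hom X Y
  have h3 := h j hj (C.map (fst X Y) c) ⟨C.isFunctorial.map_mem _ _ _ hc, Δ, hΔ, fun g hg => by
    rw [h1, hΔc g hg, map_smul]⟩
  have h4 := span_map (f := lift (𝟙 X) f) h3
  rwa [← map_comp_apply, lift_fst, map_id_apply] at h4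

include h2 in
theorem tate_snd {n : ℕ} (h : TateElt χ (C.gr (X.prod Y)) (algClasses C.toSmData (X.prod Y)) υ n) :
    TateElt χ (C.gr Y) (algClasses C.toSmData Y) τ n := by
  intro j hj c ⟨hc, Δ, hΔ, hΔc⟩
  obtain ⟨f⟩ := C.nonempty_hom Y X
  have h3 := h j hj (C.map (snd X Y) c) ⟨C.isFunctorial.map_mem _ _ _ hc, Δ, hΔ, fun g hg => by
    rw [h2, hΔc g hg, map_smul]⟩
  have h4 := span_map (f := lift f (𝟙 Y)) h3
  rwa [← map_comp_apply, lift_snd, map_id_apply] at h4

include h1 h2 in
/-- **The Tate conjecture for the product with an unlinked factor.** -/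
theorem tate_prod (hU : Unlinked χ (C.gr X) ρ τ) (hτ : ∀ g i, ∀ a ∈ C.gr Y i, τ g a ∈ C.gr Y i)
    {n : ℕ} (hX : TateElt χ (C.gr X) (algClasses C.toSmData X) ρ n)
    (hY : TateElt χ (C.gr Y) (algClasses C.toSmData Y) τ n) :
    TateElt χ (C.gr (X.prod Y)) (algClasses C.toSmData (X.prod Y)) υ n := by
  intro j hj c ⟨hc, Δ, hΔ, hΔc⟩
  have h3 := tate_span (C.kunneth X Y) h1 h2 (C.isAlg X).isInternal (C.isAlg Y).isInternal
    (C.isAlg _).isInternal (C.isAlg _).mul_mem (C.isFunctorial.map_mem _) (C.isFunctorial.map_mem _) hU hτ hc hΔ hΔc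
  refine (Submodule.span_le.2 ?_) h3
  rintro _ ⟨i, i', x, y, hij, hx, hy, rfl⟩
  rw [SetLike.mem_coe, ← hij]
  exact span_mul (span_map (hX i (by omega) x hx)) (span_map (hY i' (by omega) y hy))

end geo

/-- The properties of a tower. -/
theorem tower_props [IsAlgClosed C.K] (hF : IndependentFamily χ F) {S : Set J} {U : OVar C Γ}
    (hUd : RespectsDegrees U) (hU : EigenvaluesFrom χ P F S U) {l : List (J × OVar C Γ)}
    {Y : OVar C Γ} (hY : IsTower F U l Y) :
    RespectsDegrees Y ∧ EigenvaluesFrom χ P F (S ∪ {i | ∃ p ∈ l, p.1 = i}) Y := by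
  induction hY with
  | base => exact ⟨hUd, hU.mono Set.subset_union_left⟩
  | @step l Y Y' i X hT hi hX hP ih =>
    obtain ⟨hYd, hY⟩ := ih
    obtain ⟨YX, υ⟩ := Y'
    obtain ⟨h0, h1, h2⟩ := hP
    change YX = X.X.prod Y.X at h0
    subst h0
    simp only [eqToHom_refl, Category.id_comp] at h1 h2
    refine ⟨graded_prod (C.kunneth _ _) h1 h2 (C.isAlg _).isInternal (C.isAlg _).isInternal
      (C.isAlg _).isInternal (C.isAlg _).mul_mem (C.isFunctorial.map_mem _) (C.isFunctorial.map_mem _)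
      (hF.degrees i X hX) hYd, ?_⟩
    intro g x hx
    obtain ⟨a, b, rfl, ha, hb⟩ := eig_prod (C.kunneth _ _) h1 h2 hx
    refine mul_mem ?_ ?_
    · refine Subgroup.subset_closure (Or.inr (Set.mem_iUnion₂.2 ⟨i, ?_, X, hX, ha⟩))
      exact Or.inr ⟨(i, X), List.mem_cons_self, rfl⟩
    · refine Subgroup.closure_mono ?_ (hY g b hb)
      refine Set.union_subset_union_right _ (Set.biUnion_subset_biUnion_left ?_)
      refine Set.union_subset_union_right _ ?_
      rintro _ ⟨p, hp, rfl⟩
      exact ⟨p, List.mem_cons_of_mem _ hp, rfl⟩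

/-- The members outside of the exceptional set are unlinked. -/
theorem tower_unlinked [IsAlgClosed C.K] (hF : IndependentFamily χ F) {S : Finset J}
    (hS : ∀ B : Finset J, ∀ i, i ∉ (S : Set J) ∪ B → ¬ LinkedTo χ P F ((S : Set J) ∪ B) i)
    {U : OVar C Γ} (hUd : RespectsDegrees U) (hU : EigenvaluesFrom χ P F S U)
    {l : List (J × OVar C Γ)} {Y : OVar C Γ} (hY : IsTower F U l Y) {i : J}
    (hi : ∀ p ∈ l, p.1 ≠ i) (hiS : i ∉ S) {X : OVar C Γ} (hX : X ∈ F i) :
    Unlinked χ (C.gr X.X) X.act Y.act := by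
  classical
  obtain ⟨hYd, hYe⟩ := tower_props hF hUd hU hY
  have hlink : ¬ LinkedTo χ P F ((S : Set J) ∪ (l.map Prod.fst).toFinset) i := by
    refine hS _ i ?_
    rintro (h | h)
    · exact hiS h
    · rw [Finset.mem_coe, List.mem_toFinset, List.mem_map] at h
      obtain ⟨p, hp, hpi⟩ := h
      exact hi p hp hpi
  by_contra hL
  refine hlink ⟨X, hX, Y, hYe.mono ?_, hL⟩
  refine Set.union_subset_union_right _ ?_
  rintro _ ⟨p, hp, rfl⟩
  rw [Finset.mem_coe, List.mem_toFinset, List.mem_map]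
  exact ⟨p, hp, rfl⟩

/-- **The Tate classes on towers.** -/
theorem split_tower [IsAlgClosed C.K] (hF : IndependentFamily χ F) {S : Finset J}
    (hS : ∀ B : Finset J, ∀ i, i ∉ (S : Set J) ∪ B → ¬ LinkedTo χ P F ((S : Set J) ∪ B) i)
    {U : OVar C Γ} (hUd : RespectsDegrees U) (hU : EigenvaluesFrom χ P F S U)
    {l : List (J × OVar C Γ)} {Y : OVar C Γ} (hY : IsTower F U l Y) (hl : ∀ p ∈ l, p.1 ∉ S) :
    TateClassesSplit χ U l Y := by
  induction hY with
  | base => exact fun j c hc => Submodule.subset_span (IsTateProduct.base j c hc)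
  | @step l Y Y' i X hT hi hX hP ih =>
    have ih' := ih fun p hp => hl p (List.mem_cons_of_mem _ hp)
    have hL := tower_unlinked hF hS hUd hU hT hi (hl _ List.mem_cons_self) hX
    obtain ⟨hYd, -⟩ := tower_props hF hUd hU hT
    obtain ⟨YX, υ⟩ := Y'
    obtain ⟨h0, h1, h2⟩ := hP
    change YX = X.X.prod Y.X at h0
    subst h0
    have hstep : ∀ (m j : ℕ) (a : C.H X.X), IsTateClass χ (C.gr X.X) X.act m a → ∀ c,
        IsTateProduct χ (J := J) U l Y j c →
        C.map (fst X.X Y.X) a * C.map (snd X.X Y.X) c ∈ Submodule.span C.K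
          {c | IsTateProduct χ U ((i, X) :: l) (⟨X.X.prod Y.X, υ⟩ : OVar C Γ) (m + j) c} := by
      intro m j a ha c hc
      have h3 := IsTateProduct.step (Y' := (⟨X.X.prod Y.X, υ⟩ : OVar C Γ)) i X m a rfl hc ha
      rw [cross, mulPull] at h3
      simp only [eqToHom_refl, Category.id_comp] at h3
      exact Submodule.subset_span h3
    simp only [eqToHom_refl, Category.id_comp] at h1 h2
    intro j c ⟨hc, Δ, hΔ, hΔc⟩
    have h3 := tate_span (C.kunneth X.X Y.X) h1 h2 (C.isAlg _).isInternal (C.isAlg _).isInternal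
      (C.isAlg _).isInternal (C.isAlg _).mul_mem (C.isFunctorial.map_mem _) (C.isFunctorial.map_mem _) hL hYd hc hΔ hΔc
    refine (Submodule.span_le.2 ?_) h3
    rintro _ ⟨m, m', x, y, hij, hx, hy, rfl⟩
    rw [SetLike.mem_coe, ← hij]
    have h4 := ih' m' y hy
    clear hy
    induction h4 using Submodule.span_induction with
    | mem c hc => exact hstep m m' x hx c hc
    | zero => rw [map_zero, mul_zero]; exact Submodule.zero_mem _
    | add y y' _ _ hy hy' => rw [map_add, mul_add]; exact Submodule.add_mem _ hy hy'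
    | smul r y _ hy => rw [map_smul, mul_smul_comm]; exact Submodule.smul_mem _ _ hy

/-- **The Tate conjecture for towers.** -/
theorem tate_tower [IsAlgClosed C.K] (hF : IndependentFamily χ F) {S : Finset J}
    (hS : ∀ B : Finset J, ∀ i, i ∉ (S : Set J) ∪ B → ¬ LinkedTo χ P F ((S : Set J) ∪ B) i)
    {U : OVar C Γ} (hUd : RespectsDegrees U) (hU : EigenvaluesFrom χ P F S U)
    {l : List (J × OVar C Γ)} {Y : OVar C Γ} (hY : IsTower F U l Y) (hl : ∀ p ∈ l, p.1 ∉ S)
    (n : ℕ) : TateUpTo χ n Y ↔ TateUpTo χ n U ∧ ∀ p ∈ l, TateUpTo χ n p.2 := by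
  induction hY with
  | base => simp
  | @step l Y Y' i X hT hi hX hP ih =>
    have ih' := ih fun p hp => hl p (List.mem_cons_of_mem _ hp)
    have hL := tower_unlinked hF hS hUd hU hT hi (hl _ List.mem_cons_self) hX
    obtain ⟨hYd, -⟩ := tower_props hF hUd hU hT
    have hgoal : TateUpTo χ n Y' ↔ TateUpTo χ n Y ∧ TateUpTo χ n X := by
      obtain ⟨YX, υ⟩ := Y'
      obtain ⟨h0, h1, h2⟩ := hP
      change YX = X.X.prod Y.X at h0
      subst h0
      simp only [eqToHom_refl, Category.id_comp] at h1 h2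
      exact ⟨fun h => ⟨tate_snd h2 h, tate_fst h1 h⟩, fun h => tate_prod h1 h2 hL hYd h.2 h.1⟩
    rw [hgoal, ih', and_assoc]
    refine and_congr_right fun _ => ?_
    constructor
    · rintro ⟨h1, h2⟩ p hp
      rcases List.mem_cons.1 hp with rfl | hp
      · exact h2
      · exact h1 p hp
    · intro h
      exact ⟨fun p hp => h p (List.mem_cons_of_mem _ hp), h (i, X) List.mem_cons_self⟩

end Pool.Agent.H621.OV
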