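import Mathlib

/-!
# Smooth varieties over a field, their products, and algebraic cycles
-/

open CategoryTheory CategoryTheory.Limits AlgebraicGeometry

universe u

namespace Pool.Agent.H621.OV

/-- A smooth variety over the field `k`, not necessarily proper: a scheme `X` with a structure
morphism to `Spec k` which is smooth of relative dimension `dim`, quasi-compact, separated and
geometrically irreducible. -/
structure SVar (k : Type u) [Field k] where
  /-- the underlying scheme -/
  X : Scheme.{u}
  /-- the structure morphism -/
  str : X ⟶ Spec (.of k)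
  /-- the dimension -/
  dim : ℕ
  smooth : SmoothOfRelativeDimension dim str
  qc : QuasiCompact str
  sep : IsSeparated str
  irred : GeometricallyIrreducible str

attribute [instance] SVar.smooth SVar.qc SVar.sep SVar.irred

namespace SVar

variable {k : Type u} [Field k]

/-- A morphism of varieties over `k`. -/
@[ext]
structure Hom (X Y : SVar k) where
  /-- the underlying morphism of schemes -/
  hom : X.X ⟶ Y.X
  w : hom ≫ Y.str = X.str

instance : Category (SVar k) where
  Hom := Hom
  id X := ⟨𝟙 _, by simp⟩
  comp f g := ⟨f.hom ≫ g.hom, by rw [Category.assoc, g.w, f.w]⟩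

@[ext]
lemma hom_ext {X Y : SVar k} {f g : X ⟶ Y} (h : f.hom = g.hom) : f = g := Hom.ext h

@[simp] lemma id_hom (X : SVar k) : (𝟙 X : X ⟶ X).hom = 𝟙 X.X := rfl
@[simp] lemma comp_hom {X Y Z : SVar k} (f : X ⟶ Y) (g : Y ⟶ Z) :
    (f ≫ g).hom = f.hom ≫ g.hom := rfl

/-- The product `X × Y` of two varieties over `k`. -/
noncomputable def prod (X Y : SVar k) : SVar k where
  X := pullback X.str Y.str
  str := pullback.fst X.str Y.str ≫ X.str
  dim := X.dim + Y.dim
  smooth := by
    have h0 := smoothOfRelativeDimension_isStableUnderBaseChange Y.dim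
    have h : SmoothOfRelativeDimension Y.dim (pullback.fst X.str Y.str) :=
      MorphismProperty.pullback_fst (P := @SmoothOfRelativeDimension Y.dim) _ _ Y.smooth
    rw [add_comm]
    exact smoothOfRelativeDimension_comp Y.dim X.dim (pullback.fst X.str Y.str) X.str
  qc := inferInstance
  sep := inferInstance
  irred := by
    have h1 : Smooth X.str := SmoothOfRelativeDimension.smooth X.dim X.str
    have h2 : Smooth Y.str := SmoothOfRelativeDimension.smooth Y.dim Y.str
    exact GeometricallyIrreducible.comp _ _

/-- The first projection. -/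
noncomputable def fst (X Y : SVar k) : X.prod Y ⟶ X := ⟨pullback.fst X.str Y.str, rfl⟩

/-- The second projection. -/
noncomputable def snd (X Y : SVar k) : X.prod Y ⟶ Y :=
  ⟨pullback.snd X.str Y.str, pullback.condition.symm⟩

/-- The morphism to the product given by a pair of morphisms. -/
noncomputable def lift {W X Y : SVar k} (f : W ⟶ X) (g : W ⟶ Y) : W ⟶ X.prod Y :=
  ⟨pullback.lift f.hom g.hom (by rw [f.w, g.w]), by
    change pullback.lift _ _ _ ≫ pullback.fst X.str Y.str ≫ X.str = _
    rw [pullback.lift_fst_assoc, f.w]⟩

@[reassoc (attr := simp)]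
lemma lift_fst {W X Y : SVar k} (f : W ⟶ X) (g : W ⟶ Y) : lift f g ≫ fst X Y = f :=
  hom_ext (pullback.lift_fst _ _ _)

@[reassoc (attr := simp)]
lemma lift_snd {W X Y : SVar k} (f : W ⟶ X) (g : W ⟶ Y) : lift f g ≫ snd X Y = g :=
  hom_ext (pullback.lift_snd _ _ _)

/-- Cycles with rational coefficients on `X`: finite formal `ℚ`-linear combinations of points of
the scheme `X`, a point standing for its closure (an integral closed subscheme). -/
def Cycles (X : SVar k) : Type u := X.X →₀ ℚ

noncomputable instance (X : SVar k) : AddCommGroup X.Cycles :=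
  inferInstanceAs (AddCommGroup (X.X →₀ ℚ))

/-- The coefficient of the cycle `z` at (the closure of) the point `x`. -/
noncomputable def coeff (X : SVar k) (z : X.Cycles) (x : X.X) : ℚ :=
  DFunLike.coe (F := X.X →₀ ℚ) z x

/-- The cycle `z` has codimension `p`: it is supported on points of codimension `p`. -/
def IsCyc (X : SVar k) (p : ℕ) (z : X.Cycles) : Prop :=
  ∀ x : X.X, X.coeff z x ≠ 0 → Order.coheight x = p

end SVar

end Pool.Agent.H621.OV
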